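import Mathlib

/-!
# Waring rank after adjoining a new variable: the inequality (i) fails

`f + u g = -5 u³ + (u + x)³ + 2 (u + y)³ + 3 (u + z)³ - (u + x + 2 y + 3 z)³` is a nodal cubic of
Waring rank at most `5`, and for every linear form `v` in `x, y, z` the ternary cubic `f + v g` is not
a cone, hence has Waring rank at least `3`. So `WR (f + u g) ≤ 5 < 3 + min_v WR (f + v g)`.
-/

set_option autoImplicit false

namespace Pool.Agent.Results.MP_1e0c69_ag.NewVariable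

open MvPolynomial

/-- `F` is a sum of `w` `d`-th powers of linear forms. -/
def IsSumPow {σ : Type} (d w : ℕ) (F : MvPolynomial σ ℂ) : Prop :=
  ∃ l : Fin w → MvPolynomial σ ℂ, (∀ i, (l i).IsHomogeneous 1) ∧ F = ∑ i, l i ^ d

/-- The Waring rank of `F` with respect to `d`-th powers: the least `w` such that `F` is a sum of `w`
`d`-th powers of linear forms (`⊤` if there is none). -/
noncomputable def WR {σ : Type} (d : ℕ) (F : MvPolynomial σ ℂ) : ℕ∞ :=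
  ⨅ w : {w : ℕ // IsSumPow d w F}, ((w : ℕ) : ℕ∞)

theorem linear_eval (v : MvPolynomial (Fin 3) ℂ) (hv : v.IsHomogeneous 1) :
    ∃ a : Fin 3 → ℂ, ∀ t : Fin 3 → ℂ, eval t v = ∑ i, a i * t i := by
  have h : v ∈ Submodule.span ℂ (Set.range (X : Fin 3 → MvPolynomial (Fin 3) ℂ)) := by
    rw [← homogeneousSubmodule_one_eq_span_X]
    exact hv
  clear hv
  induction h using Submodule.span_induction with
  | mem x hx =>
    obtain ⟨i, rfl⟩ := hx
    exact ⟨Pi.single i 1, fun t => by simp [Pi.single_apply]⟩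
  | zero => exact ⟨0, fun t => by simp⟩
  | add x y _ _ hx hy =>
    obtain ⟨a, ha⟩ := hx
    obtain ⟨b, hb⟩ := hy
    refine ⟨a + b, fun t => ?_⟩
    rw [map_add, ha, hb, ← Finset.sum_add_distrib]
    exact Finset.sum_congr rfl fun i _ => by rw [Pi.add_apply, add_mul]
  | smul c x _ hx =>
    obtain ⟨a, ha⟩ := hx
    refine ⟨c • a, fun t => ?_⟩
    rw [smul_eval, ha, Finset.mul_sum]
    exact Finset.sum_congr rfl fun i _ => by rw [Pi.smul_apply, smul_eq_mul, mul_assoc]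

/-- The key computation. -/
theorem key (a b c w1 w2 w3 : ℂ)
    (h : ∀ t1 t2 t3 s : ℂ,
      -5 * (a * (t1 + s * w1) + b * (t2 + s * w2) + c * (t3 + s * w3)) ^ 3 +
      ((a * (t1 + s * w1) + b * (t2 + s * w2) + c * (t3 + s * w3)) + (t1 + s * w1)) ^ 3 +
      2 * ((a * (t1 + s * w1) + b * (t2 + s * w2) + c * (t3 + s * w3)) + (t2 + s * w2)) ^ 3 +
      3 * ((a * (t1 + s * w1) + b * (t2 + s * w2) + c * (t3 + s * w3)) + (t3 + s * w3)) ^ 3 -
      ((a * (t1 + s * w1) + b * (t2 + s * w2) + c * (t3 + s * w3)) + (t1 + s * w1) +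
        2 * (t2 + s * w2) + 3 * (t3 + s * w3)) ^ 3 =
      -5 * (a * t1 + b * t2 + c * t3) ^ 3 + ((a * t1 + b * t2 + c * t3) + t1) ^ 3 +
      2 * ((a * t1 + b * t2 + c * t3) + t2) ^ 3 + 3 * ((a * t1 + b * t2 + c * t3) + t3) ^ 3 -
      ((a * t1 + b * t2 + c * t3) + t1 + 2 * t2 + 3 * t3) ^ 3) : w1 = 0 ∧ w2 = 0 ∧ w3 = 0 := by
  obtain ⟨r, hr⟩ : ∃ r, r = a * w1 + b * w2 + c * w3 := ⟨_, rfl⟩
  have hD : ∀ t1 t2 t3 : ℂ,
      -5 * r * (a * t1 + b * t2 + c * t3) ^ 2 + (r + w1) * ((a * t1 + b * t2 + c * t3) + t1) ^ 2 +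
      2 * (r + w2) * ((a * t1 + b * t2 + c * t3) + t2) ^ 2 +
      3 * (r + w3) * ((a * t1 + b * t2 + c * t3) + t3) ^ 2 -
      (r + w1 + 2 * w2 + 3 * w3) * ((a * t1 + b * t2 + c * t3) + t1 + 2 * t2 + 3 * t3) ^ 2 = 0 := by
    intro t1 t2 t3
    rw [hr]
    linear_combination (h t1 t2 t3 1 - h t1 t2 t3 (-1)) / 6 - h 0 0 0 1 / 3
  have e1 := hD 1 0 0
  have e2 := hD 0 1 0
  have e3 := hD 0 0 1
  have e12 := hD 1 1 0
  have e13 := hD 1 0 1
  have e23 := hD 0 1 1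
  obtain ⟨E2, h2⟩ : ∃ E2, E2 = r + w1 := ⟨_, rfl⟩
  obtain ⟨E3, h3⟩ : ∃ E3, E3 = 2 * (r + w2) := ⟨_, rfl⟩
  obtain ⟨E4, h4⟩ : ∃ E4, E4 = 3 * (r + w3) := ⟨_, rfl⟩
  obtain ⟨E5, h5⟩ : ∃ E5, E5 = -(r + w1 + 2 * w2 + 3 * w3) := ⟨_, rfl⟩
  have hxx : (E2 + E5) * (2 * a + 1) = 0 := by
    rw [h2, h5]; linear_combination e1
  have hyy : 2 * b * (E3 + 2 * E5) + E3 + 4 * E5 = 0 := by
    rw [h3, h5]; linear_combination e2
  have hzz : 2 * c * (E4 + 3 * E5) + E4 + 9 * E5 = 0 := by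
    rw [h4, h5]; linear_combination e3
  have hxy : a * (E3 + 2 * E5) + b * (E2 + E5) + 2 * E5 = 0 := by
    rw [h2, h3, h5]; linear_combination (e12 - e1 - e2) / 2
  have hxz : a * (E4 + 3 * E5) + c * (E2 + E5) + 3 * E5 = 0 := by
    rw [h2, h4, h5]; linear_combination (e13 - e1 - e3) / 2
  have hyz : b * (E4 + 3 * E5) + c * (E3 + 2 * E5) + 6 * E5 = 0 := by
    rw [h3, h4, h5]; linear_combination (e23 - e2 - e3) / 2
  clear e1 e2 e3 e12 e13 e23 hD h
  refine ⟨?_, ?_, ?_⟩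
  · grind
  · grind
  · grind

/-- `f = x³ + 2 y³ + 3 z³ - (x + 2 y + 3 z)³`. -/
noncomputable def f0 : MvPolynomial (Fin 3) ℂ :=
  X 0 ^ 3 + C 2 * X 1 ^ 3 + C 3 * X 2 ^ 3 - (X 0 + C 2 * X 1 + C 3 * X 2) ^ 3

/-- `g = 3 (x² + 2 y² + 3 z² - (x + 2 y + 3 z)²)`. -/
noncomputable def g0 : MvPolynomial (Fin 3) ℂ :=
  C 3 * (X 0 ^ 2 + C 2 * X 1 ^ 2 + C 3 * X 2 ^ 2 - (X 0 + C 2 * X 1 + C 3 * X 2) ^ 2)

/-- No section `f + v g` is a sum of two cubes. -/
theorem lower (v : MvPolynomial (Fin 3) ℂ) (hv : v.IsHomogeneous 1) (w : ℕ)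
    (hw : IsSumPow 3 w (f0 + v * g0)) : 3 ≤ w := by
  by_contra hlt
  push Not at hlt
  obtain ⟨l, hl, hsum⟩ := hw
  obtain ⟨a, ha⟩ := linear_eval v hv
  choose A hA using fun i => linear_eval (l i) (hl i)
  -- a common zero of the linear forms
  obtain ⟨ω, hω, hω0⟩ : ∃ ω : Fin 3 → ℂ, ω ≠ 0 ∧ ∀ i, ∑ j, A i j * ω j = 0 := by
    have hker : LinearMap.ker (Matrix.mulVecLin (Matrix.of A)) ≠ ⊥ := by
      apply LinearMap.ker_ne_bot_of_finrank_lt
      simpa using hlt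
    obtain ⟨ω, hω, hne⟩ := Submodule.exists_mem_ne_zero_of_ne_bot hker
    refine ⟨ω, hne, fun i => ?_⟩
    have := congrFun (LinearMap.mem_ker.1 hω) i
    simpa [Matrix.mulVecLin_apply, Matrix.mulVec, dotProduct] using this
  have hinv : ∀ (t : Fin 3 → ℂ) (s : ℂ), eval (t + s • ω) (f0 + v * g0) = eval t (f0 + v * g0) := by
    intro t s
    rw [hsum, map_sum, map_sum]
    refine Finset.sum_congr rfl fun i _ => ?_
    rw [map_pow, map_pow, hA, hA]
    congr 1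
    have : ∑ j, A i j * (t + s • ω) j = ∑ j, A i j * t j + s * ∑ j, A i j * ω j := by
      rw [Finset.mul_sum, ← Finset.sum_add_distrib]
      refine Finset.sum_congr rfl fun j _ => ?_
      rw [Pi.add_apply, Pi.smul_apply, smul_eq_mul]; ring
    rw [this, hω0, mul_zero, add_zero]
  have hval : ∀ t : Fin 3 → ℂ, eval t (f0 + v * g0) =
      -5 * (a 0 * t 0 + a 1 * t 1 + a 2 * t 2) ^ 3 +
      ((a 0 * t 0 + a 1 * t 1 + a 2 * t 2) + t 0) ^ 3 +
      2 * ((a 0 * t 0 + a 1 * t 1 + a 2 * t 2) + t 1) ^ 3 +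
      3 * ((a 0 * t 0 + a 1 * t 1 + a 2 * t 2) + t 2) ^ 3 -
      ((a 0 * t 0 + a 1 * t 1 + a 2 * t 2) + t 0 + 2 * t 1 + 3 * t 2) ^ 3 := by
    intro t
    have h1 := ha t
    rw [Fin.sum_univ_three] at h1
    simp only [f0, g0, map_add, map_sub, map_mul, map_pow, eval_X, eval_C, h1]
    ring
  obtain ⟨h1, h2, h3⟩ := key (a 0) (a 1) (a 2) (ω 0) (ω 1) (ω 2) (by
    intro t1 t2 t3 s
    have := hinv ![t1, t2, t3] s
    rw [hval, hval] at this
    simp only [Pi.add_apply, Pi.smul_apply, smul_eq_mul, Matrix.cons_val_zero,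
      Matrix.cons_val_one, Matrix.cons_val] at this
    exact this)
  apply hω
  funext i
  fin_cases i
  · exact h1
  · exact h2
  · exact h3

theorem isHom_X (i : Fin 3) : (X i : MvPolynomial (Fin 3) ℂ).IsHomogeneous 1 := isHomogeneous_X _ _

theorem hom_L : (X 0 + C 2 * X 1 + C 3 * X 2 : MvPolynomial (Fin 3) ℂ).IsHomogeneous 1 :=
  ((isHom_X 0).add ((isHom_X 1).C_mul 2)).add ((isHom_X 2).C_mul 3)

theorem hom_f0 : f0.IsHomogeneous 3 :=
  ((((isHom_X 0).pow 3).add (((isHom_X 1).pow 3).C_mul 2)).add (((isHom_X 2).pow 3).C_mul 3)).sub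
    (hom_L.pow 3)

theorem hom_g0 : g0.IsHomogeneous 2 :=
  (((((isHom_X 0).pow 2).add (((isHom_X 1).pow 2).C_mul 2)).add (((isHom_X 2).pow 2).C_mul 3)).sub
    (hom_L.pow 2)).C_mul 3

theorem f0_ne : f0 ≠ 0 := by
  intro h
  have := congrArg (eval ![0, 1, 0]) h
  simp [f0] at this
  norm_num at this

theorem g0_ne : g0 ≠ 0 := by
  intro h
  have := congrArg (eval ![0, 1, 0]) h
  simp [g0] at this
  norm_num at this

/-- The nodal cubic `f + u g` is a sum of five cubes. -/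
theorem upper : IsSumPow 3 5 (rename some f0 + X none * rename some g0 :
    MvPolynomial (Option (Fin 3)) ℂ) := by
  obtain ⟨k1, hk1⟩ := IsAlgClosed.exists_pow_nat_eq (-5 : ℂ) (n := 3) (by norm_num)
  obtain ⟨k2, hk2⟩ := IsAlgClosed.exists_pow_nat_eq (2 : ℂ) (n := 3) (by norm_num)
  obtain ⟨k3, hk3⟩ := IsAlgClosed.exists_pow_nat_eq (3 : ℂ) (n := 3) (by norm_num)
  have hX : ∀ i : Option (Fin 3), (X i : MvPolynomial (Option (Fin 3)) ℂ).IsHomogeneous 1 :=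
    fun i => isHomogeneous_X _ _
  refine ⟨![C k1 * X none, X none + X (some 0), C k2 * (X none + X (some 1)),
    C k3 * (X none + X (some 2)), C (-1) * (X none + X (some 0) + C 2 * X (some 1) +
      C 3 * X (some 2))], ?_, ?_⟩
  · intro i
    fin_cases i
    · exact (hX _).C_mul _
    · exact (hX _).add (hX _)
    · exact ((hX _).add (hX _)).C_mul _
    · exact ((hX _).add (hX _)).C_mul _
    · exact ((((hX _).add (hX _)).add ((hX _).C_mul _)).add ((hX _).C_mul _)).C_mul _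
  · simp only [Fin.sum_univ_five, Matrix.cons_val_zero, Matrix.cons_val_one, Matrix.cons_val,
      mul_pow, ← C_pow, hk1, hk2, hk3, f0, g0, map_add, map_sub, map_mul, map_pow, rename_X,
      rename_C, map_neg, map_ofNat, C_1]
    ring

/-- **The inequality (i) fails**: there are forms `f`, `g` in three variables of degrees `3` and `2`
with `WR (f + u g) ≤ 5` while `WR (f + v g) ≥ 3` for every linear form `v` in the three variables, so
that `WR (f + u g) < 3 + min_v WR (f + v g)`. -/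
theorem result : ∃ f g : MvPolynomial (Fin 3) ℂ, f.IsHomogeneous 3 ∧ g.IsHomogeneous 2 ∧ f ≠ 0 ∧
    g ≠ 0 ∧ WR 3 (rename some f + X none * rename some g : MvPolynomial (Option (Fin 3)) ℂ) ≤ 5 ∧
    (∀ v : MvPolynomial (Fin 3) ℂ, v.IsHomogeneous 1 → 3 ≤ WR 3 (f + v * g)) ∧
    WR 3 (rename some f + X none * rename some g : MvPolynomial (Option (Fin 3)) ℂ) <
      3 + ⨅ v : {v : MvPolynomial (Fin 3) ℂ // v.IsHomogeneous 1}, WR 3 (f + v.1 * g) := by
  have h1 : WR 3 (rename some f0 + X none * rename some g0 : MvPolynomial (Option (Fin 3)) ℂ) ≤ 5 :=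
    iInf_le_of_le ⟨5, upper⟩ le_rfl
  have h2 : ∀ v : MvPolynomial (Fin 3) ℂ, v.IsHomogeneous 1 → 3 ≤ WR 3 (f0 + v * g0) := by
    intro v hv
    refine le_iInf fun w => ?_
    exact_mod_cast lower v hv w.1 w.2
  refine ⟨f0, g0, hom_f0, hom_g0, f0_ne, g0_ne, h1, h2, ?_⟩
  have h3 : (3 : ℕ∞) ≤ ⨅ v : {v : MvPolynomial (Fin 3) ℂ // v.IsHomogeneous 1},
      WR 3 (f0 + v.1 * g0) := le_iInf fun v => h2 v.1 v.2
  calc WR 3 (rename some f0 + X none * rename some g0 : MvPolynomial (Option (Fin 3)) ℂ) ≤ 5 := h1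
    _ < 3 + 3 := by norm_num
    _ ≤ _ := add_le_add le_rfl h3

end Pool.Agent.Results.MP_1e0c69_ag.NewVariable
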